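import Mathlib
import Pool.Agent.H759R2.Kad.Props
import Pool.Agent.H759R2.Kad.Props2

open scoped ComplexOrder InnerProductSpace ComplexConjugate
open Finset

noncomputable section

namespace H759R2.Kad

universe u v

namespace Rec2

theorem tracial_star {A : Type u} [CStarAlgebra A] {τ : A →ₗ[ℂ] ℂ} (h : IsTracialState τ) (a : A) :
    τ (star a) = conj (τ a) := by
  have hre : ∀ b, (τ (star b * b)).im = 0 := fun b => by
    have h1 := h.pos b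
    rw [Complex.le_def] at h1
    exact h1.2.symm
  have h0 := hre a
  have h1 := hre (a + 1)
  have h2 := hre (a + Complex.I • (1 : A))
  have e1 : star (a + 1) * (a + 1) = star a * a + star a + a + 1 := by
    rw [star_add, star_one]
    noncomm_ring
  have e2 : star (a + Complex.I • (1 : A)) * (a + Complex.I • (1 : A)) =
      star a * a + Complex.I • star a - Complex.I • a + 1 := by
    rw [star_add, star_smul, star_one]
    have h3 : star Complex.I = -Complex.I := Complex.conj_I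
    rw [h3]
    have h4 : (-Complex.I • (1 : A)) * (Complex.I • (1 : A)) = 1 := by
      rw [smul_mul_smul_comm, one_mul]
      simp
    rw [add_mul, mul_add, mul_add, h4, mul_smul_comm, mul_one, smul_mul_assoc, one_mul, neg_smul]
    abel
  rw [e1, map_add, map_add, map_add, h.one] at h1
  rw [e2, map_add, map_sub, map_add, map_smul, map_smul, h.one] at h2
  simp only [Complex.add_im, Complex.one_im, Complex.sub_im, smul_eq_mul, Complex.mul_im,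
    Complex.I_re, Complex.I_im, zero_mul, one_mul, zero_add] at h1 h2
  apply Complex.ext
  · rw [Complex.conj_re]; linarith
  · rw [Complex.conj_im]; linarith

theorem tr_star {A : Type u} [CStarAlgebra A] {τ : A →ₗ[ℂ] ℂ} (h : IsTracialState τ)
    {ι : Type} [Fintype ι] (X : CStarMatrix ι ι A) : tr τ ι (star X) = conj (tr τ ι X) := by
  rw [tr_apply, tr_apply, map_sum]
  refine Finset.sum_congr rfl fun i _ => ?_
  rw [CStarMatrix.star_apply]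
  exact tracial_star h _

theorem tr_one {A : Type u} [CStarAlgebra A] {τ : A →ₗ[ℂ] ℂ} (h : IsTracialState τ)
    {ι : Type} [Fintype ι] [DecidableEq ι] :
    tr τ ι (1 : CStarMatrix ι ι A) = (Fintype.card ι : ℂ) := by
  rw [tr_apply]
  simp [CStarMatrix.one_apply, h.one]

theorem ph_unitary {ι : Type} [Fintype ι] [DecidableEq ι] {R : ℕ} [NeZero R] (A : Type u)
    [CStarAlgebra A] (ω : ι → ZMod R) : ph A ω ∈ unitary (CStarMatrix ι ι A) := by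
  have hchi : ∀ c, conj (chi ω c) * chi ω c = 1 := by
    intro c
    rw [Complex.conj_mul']
    have : ‖chi ω c‖ = 1 := by
      unfold chi
      exact AddChar.norm_apply _ _
    rw [this]; norm_num
  have hap : ∀ i j, ph A ω i j = if i = j then chi ω i • (1 : A) else 0 := by
    intro i j
    exact Matrix.diagonal_apply _ _ _
  have hst : ∀ i j, (star (ph A ω)) i j = if i = j then conj (chi ω i) • (1 : A) else 0 := by
    intro i j
    rw [CStarMatrix.star_apply, hap]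
    by_cases hij : i = j
    · subst hij
      simp
    · rw [if_neg (Ne.symm hij), if_neg hij, star_zero]
  rw [Unitary.mem_iff]
  constructor
  · ext i j
    rw [CStarMatrix.mul_apply, CStarMatrix.one_apply, Finset.sum_eq_single i]
    · rw [hst, if_pos rfl, hap]
      by_cases hij : i = j
      · rw [if_pos hij, if_pos hij, smul_mul_smul_comm, hchi, one_mul, one_smul]
      · rw [if_neg hij, if_neg hij, mul_zero]
    · intro b _ hb
      rw [hst, if_neg (Ne.symm hb), zero_mul]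
    · intro h; exact absurd (Finset.mem_univ _) h
  · ext i j
    rw [CStarMatrix.mul_apply, CStarMatrix.one_apply, Finset.sum_eq_single i]
    · rw [hap, if_pos rfl, hst]
      by_cases hij : i = j
      · rw [if_pos hij, if_pos hij, smul_mul_smul_comm, mul_comm, hchi, one_mul, one_smul]
      · rw [if_neg hij, if_neg hij, mul_zero]
    · intro b _ hb
      rw [hap, if_neg (Ne.symm hb), zero_mul]
    · intro h; exact absurd (Finset.mem_univ _) h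

theorem amp_norm_le {A : Type u} [CStarAlgebra A] [PartialOrder A] [StarOrderedRing A]
    {H : Type v} [NormedAddCommGroup H] [InnerProductSpace ℂ H] [CompleteSpace H]
    (D : A →ₗ[ℂ] (H →L[ℂ] H)) {γ1 : ℝ} (hγ : 0 ≤ γ1) (hD : ∀ a, ‖D a‖ ≤ γ1 * ‖a‖) (n : ℕ)
    (X : CStarMatrix (Fin n) (Fin n) A) : ‖amp D (Fin n) X‖ ≤ n * γ1 * ‖X‖ := by
  apply ContinuousLinearMap.opNorm_le_bound _ (by positivity)
  intro w
  have hsum : ∀ i, ‖amp D (Fin n) X w i‖ ≤ γ1 * ‖X‖ * ∑ j, ‖w j‖ := by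
    intro i
    rw [amp_apply, mul_sum]
    refine (norm_sum_le _ _).trans (sum_le_sum fun j _ => ?_)
    calc ‖D (X i j) (w j)‖ ≤ ‖D (X i j)‖ * ‖w j‖ := ContinuousLinearMap.le_opNorm _ _
      _ ≤ (γ1 * ‖X i j‖) * ‖w j‖ := by gcongr; exact hD _
      _ ≤ (γ1 * ‖X‖) * ‖w j‖ := by
          gcongr
          exact CStarMatrix.norm_entry_le_norm
      _ = _ := by ring
  have hcs : (∑ j, ‖w j‖) ^ 2 ≤ n * ‖w‖ ^ 2 := by
    have h1 := sq_sum_le_card_mul_sum_sq (s := (univ : Finset (Fin n))) (f := fun j => ‖w j‖)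
    rw [card_univ, Fintype.card_fin] at h1
    rw [PiLp.norm_sq_eq_of_L2]
    exact h1
  have hsq : ‖amp D (Fin n) X w‖ ^ 2 ≤ (n * γ1 * ‖X‖ * ‖w‖) ^ 2 := by
    rw [PiLp.norm_sq_eq_of_L2]
    calc ∑ i, ‖amp D (Fin n) X w i‖ ^ 2 ≤ ∑ _i : Fin n, (γ1 * ‖X‖ * ∑ j, ‖w j‖) ^ 2 :=
          sum_le_sum fun i _ => by
            gcongr
            exact hsum i
      _ = n * (γ1 * ‖X‖) ^ 2 * (∑ j, ‖w j‖) ^ 2 := by
          rw [sum_const, card_univ, Fintype.card_fin, nsmul_eq_mul]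
          ring
      _ ≤ n * (γ1 * ‖X‖) ^ 2 * (n * ‖w‖ ^ 2) := by gcongr
      _ = _ := by ring
  exact abs_le_of_sq_le_sq' hsq (by positivity) |>.2

theorem norm_unitary_le {B : Type u} [CStarAlgebra B] {x : B} (hx : x ∈ unitary B) :
    ‖x‖ ≤ 1 := by
  have h1 : ‖(1 : B)‖ * ‖(1 : B)‖ = ‖(1 : B)‖ := by
    rw [← CStarRing.norm_star_mul_self, star_one, one_mul]
  have h2 : ‖x‖ * ‖x‖ = ‖(1 : B)‖ := by
    rw [← CStarRing.norm_star_mul_self, hx.1]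
  have h3 : ‖(1 : B)‖ ≤ 1 := by nlinarith [norm_nonneg (1 : B)]
  nlinarith [norm_nonneg x]

/-- Averaging with an exceptional set. -/
theorem combine {Ω : Type} [Fintype Ω] (Phi Psi Y : Ω → ℝ) (q m E K : ℝ) (hm : 0 < m)
    (hq : 0 ≤ q) (hE : 0 ≤ E) (hK : 0 ≤ K) (hY : ∀ ω, 0 ≤ Y ω) (hPsi : ∀ ω, 0 ≤ Psi ω)
    (hgood : ∀ ω, Y ω ≤ m / 2 → q * Phi ω ≤ K * Psi ω) (hbad : ∀ ω, Phi ω ≤ q * E)
    (hsum : ∑ ω, Y ω ≤ (Fintype.card Ω : ℝ) * (m / 64)) :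
    q * ∑ ω, Phi ω ≤ K * ∑ ω, Psi ω + (Fintype.card Ω : ℝ) * (q ^ 2 * E / 32) := by
  have hpt : ∀ ω, q * Phi ω ≤ K * Psi ω + (2 / m * (q ^ 2 * E)) * Y ω := by
    intro ω
    rcases le_or_gt (Y ω) (m / 2) with h | h
    · have h1 := hgood ω h
      have h2 : 0 ≤ (2 / m * (q ^ 2 * E)) * Y ω := by
        have := hY ω
        positivity
      linarith
    · have h1 : q * Phi ω ≤ q * (q * E) := mul_le_mul_of_nonneg_left (hbad ω) hq
      have h2 : q ^ 2 * E ≤ (2 / m * (q ^ 2 * E)) * Y ω := by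
        have h3 : (2 / m * (q ^ 2 * E)) * (m / 2) = q ^ 2 * E := by
          field_simp
        calc q ^ 2 * E = (2 / m * (q ^ 2 * E)) * (m / 2) := h3.symm
          _ ≤ _ := mul_le_mul_of_nonneg_left h.le (by positivity)
      have h4 : 0 ≤ K * Psi ω := mul_nonneg hK (hPsi ω)
      have h5 : q * (q * E) = q ^ 2 * E := by ring
      linarith
  have h1 : q * ∑ ω, Phi ω ≤ K * ∑ ω, Psi ω + (2 / m * (q ^ 2 * E)) * ∑ ω, Y ω := by
    rw [mul_sum, mul_sum, mul_sum, ← sum_add_distrib]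
    exact sum_le_sum fun ω _ => hpt ω
  have h2 : (2 / m * (q ^ 2 * E)) * ∑ ω, Y ω ≤
      (2 / m * (q ^ 2 * E)) * ((Fintype.card Ω : ℝ) * (m / 64)) :=
    mul_le_mul_of_nonneg_left hsum (by positivity)
  have h3 : (2 / m * (q ^ 2 * E)) * ((Fintype.card Ω : ℝ) * (m / 64)) =
      (Fintype.card Ω : ℝ) * (q ^ 2 * E / 32) := by
    field_simp
    ring
  linarith

end Rec2

open Rec2 in
theorem rec2_key (h1 : T2_defect.{u, v}) (h2 : T2_entry.{u, v})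
    (h4 : T2_embed.{u, v}) (h5 : T2_det.{u, v}) (h6 : St_phtr.{u}) (h7 : T2_orbit.{u, v})
    (A : Type u) [CStarAlgebra A] [PartialOrder A] [StarOrderedRing A]
    (H : Type v) [NormedAddCommGroup H] [InnerProductSpace ℂ H] [CompleteSpace H]
    (w : A →ₗ[ℂ] (H →L[ℂ] H)) (τ : A →ₗ[ℂ] ℂ) (hw : IsHom w) (hτ : IsTracialState τ)
    (hdix : HasDixmier τ) (δ : ℝ) (hδ0 : 0 ≤ δ) (hδ1 : δ ≤ 1 / 10)
    (hwb : ∀ b, ‖w b‖ ≤ (1 + δ) * ‖b‖) (Q m l : ℕ) (hQ : 0 < Q) (hδQ : 432 * δ * Q ^ 2 ≤ 1)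
    (hm : 32768 * Q ^ 3 ≤ m) (hml : m ≤ Q * l) (γ : ℝ) (hγ : 0 ≤ γ)
    (hl : ∀ Y : CStarMatrix (Fin l) (Fin l) A, ‖amp w (Fin l) Y‖ ≤ γ * ‖Y‖)
    (hW : IsHom (amp w (Fin m))) (g : ℝ) (hg : 0 ≤ g)
    (hgW : ∀ X : CStarMatrix (Fin m) (Fin m) A, ‖amp w (Fin m) X‖ ≤ g * ‖X‖)
    (x : CStarMatrix (Fin m) (Fin m) A) (hx : x ∈ unitary (CStarMatrix (Fin m) (Fin m) A))
    (ζ : HH (Fin m) H) :
    ‖amp w (Fin m) x ζ‖ ^ 2 ≤ (g ^ 2 / 24 + 384 * γ ^ 2) * ‖ζ‖ ^ 2 := by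
  have hQr : (0 : ℝ) < Q := by exact_mod_cast hQ
  have hm0 : 0 < m := lt_of_lt_of_le (by positivity) hm
  have hmr : (0 : ℝ) < m := by exact_mod_cast hm0
  have hl0 : 0 < l := by
    rcases Nat.eq_zero_or_pos l with h | h
    · subst h; omega
    · exact h
  have hlr : (0 : ℝ) < l := by exact_mod_cast hl0
  have hmr2 : (32768 : ℝ) * Q ^ 3 ≤ m := by exact_mod_cast hm
  have hmlr : (m : ℝ) ≤ Q * l := by exact_mod_cast hml
  haveI : NeZero (2 * Q + 2) := ⟨by omega⟩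
  set G : ℝ := (Fintype.card (Fin m → ZMod (2 * Q + 2)) : ℝ) with hG
  have hG0 : 0 < G := by
    rw [hG]
    exact_mod_cast Fintype.card_pos
  set θ : HH (Fin m) H := amp w (Fin m) x ζ with hθ
  set Phi : (Fin m → ZMod (2 * Q + 2)) → ℝ := fun ω =>
    ∑ k ∈ range Q, ‖amp w (Fin m) ((x * ph A ω) ^ k) θ‖ ^ 2 with hPhi
  set Psi : (Fin m → ZMod (2 * Q + 2)) → ℝ := fun ω =>
    (1 / (Q : ℝ)) * ∑ q ∈ range Q, ‖amp w (Fin m) (star (x * ph A ω) ^ (q + 1)) θ‖ ^ 2 with hPsi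
  set Y : (Fin m → ZMod (2 * Q + 2)) → ℝ := fun ω =>
    ∑ k ∈ range (2 * Q), ‖tr τ (Fin m) ((x * ph A ω) ^ (k + 1))‖ with hY
  have hY0 : ∀ ω, 0 ≤ Y ω := fun ω => sum_nonneg fun k _ => norm_nonneg _
  have hPsi0 : ∀ ω, 0 ≤ Psi ω := fun ω =>
    mul_nonneg (by positivity) (sum_nonneg fun k _ => by positivity)
  have ht1 : (tr τ (Fin m) (1 : CStarMatrix (Fin m) (Fin m) A)).re = m := by
    rw [tr_one hτ, Fintype.card_fin]
    exact Complex.natCast_re m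
  have hU : ∀ ω : Fin m → ZMod (2 * Q + 2),
      x * ph A ω ∈ unitary (CStarMatrix (Fin m) (Fin m) A) :=
    fun ω => mul_mem hx (ph_unitary A ω)
  -- deterministic inequality
  have hdet : ∀ ω, Q * Phi ω ≤ (4 * Q ^ 2 * (27 * γ ^ 2) + 27 * γ ^ 2 / l *
      (2 * Q * m + 4 * Q * Y ω)) * Psi ω := by
    intro ω
    have h8 := h5 (CStarMatrix (Fin m) (Fin m) A) (HH (Fin m) H) (amp w (Fin m)) hW
      (tr τ (Fin m)) (tr_star hτ) (by rw [ht1]; exact hmr.le)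
      (27 * γ ^ 2) (27 * γ ^ 2 / l) (by positivity) (by positivity)
      (fun X ξ => by
        refine (h4 A H w τ hw hτ hdix (1 + δ) (by linarith) (by linarith) hwb m l Q hl0 hQ hml γ
          hγ hl X ξ).trans_eq ?_
        ring) (x * ph A ω) (hU ω) θ Q hQ
    rw [ht1] at h8
    exact h8
  have hgood : ∀ ω, Y ω ≤ m / 2 → Q * Phi ω ≤ (216 * Q ^ 2 * γ ^ 2) * Psi ω := by
    intro ω hω
    refine (hdet ω).trans (mul_le_mul_of_nonneg_right ?_ (hPsi0 ω))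
    have h8 : 27 * γ ^ 2 / l * (2 * Q * m + 4 * Q * Y ω) ≤
        27 * γ ^ 2 / l * (2 * Q * m + 4 * Q * (m / 2)) := by
      gcongr
    have h9 : 27 * γ ^ 2 / l * (2 * Q * m + 4 * Q * (m / 2)) = 108 * γ ^ 2 * Q * (m / l) := by
      field_simp
      ring
    have h10 : (m : ℝ) / l ≤ Q := by
      rw [div_le_iff₀ hlr]; exact hmlr
    have h11 : 108 * γ ^ 2 * Q * (m / l) ≤ 108 * γ ^ 2 * Q * Q :=
      mul_le_mul_of_nonneg_left h10 (by positivity)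
    calc 4 * Q ^ 2 * (27 * γ ^ 2) + 27 * γ ^ 2 / l * (2 * Q * m + 4 * Q * Y ω)
        ≤ 4 * Q ^ 2 * (27 * γ ^ 2) + 108 * γ ^ 2 * Q * Q := by
          rw [h9] at h8
          exact add_le_add le_rfl (h8.trans h11)
      _ = 216 * Q ^ 2 * γ ^ 2 := by ring
  have hbad : ∀ ω, Phi ω ≤ Q * (g ^ 2 * ‖ζ‖ ^ 2) := by
    intro ω
    have h8 : ∀ k ∈ range Q, ‖amp w (Fin m) ((x * ph A ω) ^ k) θ‖ ^ 2 ≤ g ^ 2 * ‖ζ‖ ^ 2 := by
      intro k _
      have h9 : amp w (Fin m) ((x * ph A ω) ^ k) θ = amp w (Fin m) ((x * ph A ω) ^ k * x) ζ := by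
        rw [hW.mul]
        rfl
      have h10 : (x * ph A ω) ^ k * x ∈ unitary (CStarMatrix (Fin m) (Fin m) A) :=
        mul_mem (pow_mem (hU ω) k) hx
      have h11 : ‖amp w (Fin m) ((x * ph A ω) ^ k * x) ζ‖ ≤ g * ‖ζ‖ := by
        refine (ContinuousLinearMap.le_opNorm _ _).trans ?_
        refine mul_le_mul_of_nonneg_right ?_ (norm_nonneg _)
        refine (hgW _).trans ?_
        calc g * ‖(x * ph A ω) ^ k * x‖ ≤ g * 1 :=
              mul_le_mul_of_nonneg_left (norm_unitary_le h10) hg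
          _ = g := mul_one g
      rw [h9]
      calc ‖amp w (Fin m) ((x * ph A ω) ^ k * x) ζ‖ ^ 2 ≤ (g * ‖ζ‖) ^ 2 :=
            pow_le_pow_left₀ (norm_nonneg _) h11 2
        _ = g ^ 2 * ‖ζ‖ ^ 2 := by ring
    calc Phi ω ≤ ∑ _k ∈ range Q, g ^ 2 * ‖ζ‖ ^ 2 := sum_le_sum h8
      _ = Q * (g ^ 2 * ‖ζ‖ ^ 2) := by
        rw [sum_const, card_range, nsmul_eq_mul]
  -- traces
  have htr : ∀ k ∈ range (2 * Q), ∑ ω : Fin m → ZMod (2 * Q + 2),
      ‖tr τ (Fin m) ((x * ph A ω) ^ (k + 1))‖ ≤ G * (m / (128 * Q)) := by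
    intro k hk
    rw [Finset.mem_range] at hk
    have h8 : ∑ ω : Fin m → ZMod (2 * Q + 2),
        ‖tr τ (Fin m) ((x * ph A ω) ^ (k + 1))‖ ^ 2 ≤ G * ((k + 1) * m) := by
      have := h6 (Fin m) (2 * Q + 2) A τ hτ x hx k (by omega)
      rw [Fintype.card_fin] at this
      exact this
    have h9 : (∑ ω : Fin m → ZMod (2 * Q + 2),
        ‖tr τ (Fin m) ((x * ph A ω) ^ (k + 1))‖) ^ 2 ≤ G * ∑ ω : Fin m → ZMod (2 * Q + 2),
        ‖tr τ (Fin m) ((x * ph A ω) ^ (k + 1))‖ ^ 2 := by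
      have := sq_sum_le_card_mul_sum_sq (s := (Finset.univ : Finset (Fin m → ZMod (2 * Q + 2))))
        (f := fun ω => ‖tr τ (Fin m) ((x * ph A ω) ^ (k + 1))‖)
      rw [Finset.card_univ] at this
      exact this
    have h10 : (0 : ℝ) ≤ ∑ ω : Fin m → ZMod (2 * Q + 2),
        ‖tr τ (Fin m) ((x * ph A ω) ^ (k + 1))‖ := Finset.sum_nonneg fun ω _ => norm_nonneg _
    have hk' : ((k : ℝ) + 1) ≤ 2 * Q := by exact_mod_cast hk
    rw [← pow_le_pow_iff_left₀ h10 (by positivity) two_ne_zero]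
    refine h9.trans ((mul_le_mul_of_nonneg_left h8 hG0.le).trans ?_)
    have h11 : ((k : ℝ) + 1) * m ≤ 2 * Q * m := mul_le_mul_of_nonneg_right hk' hmr.le
    have h12 : 2 * (Q : ℝ) * m ≤ (m / (128 * Q)) ^ 2 := by
      rw [div_pow, le_div_iff₀ (by positivity)]
      have h13 : 2 * (Q : ℝ) * m * (128 * Q) ^ 2 = (32768 * Q ^ 3) * m := by ring
      rw [h13, sq]
      exact mul_le_mul_of_nonneg_right hmr2 hmr.le
    calc G * (G * ((k + 1) * m)) ≤ G * (G * (m / (128 * Q)) ^ 2) := by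
          have := h11.trans h12
          gcongr
      _ = (G * (m / (128 * Q))) ^ 2 := by ring
  have hsumY : ∑ ω, Y ω ≤ G * (m / 64) := by
    rw [hY, sum_comm]
    refine (Finset.sum_le_sum htr).trans_eq ?_
    rw [Finset.sum_const, Finset.card_range, nsmul_eq_mul]
    push_cast
    field_simp
    ring
  -- orbits
  have hdef := h1 A H w hw δ hδ0 hδ1 hwb
  have hent : ∀ y : CStarMatrix (Fin m) (Fin m) A,
      y ∈ unitary (CStarMatrix (Fin m) (Fin m) A) → ∀ (i j : Fin m) (h : H),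
      ‖(star (amp w (Fin m) y) * amp w (Fin m) y - 1) (inj j h) i‖ ≤ 18 * (6 * δ) * ‖h‖ :=
    fun y hy i j h => h2 A H w τ hw hτ hdix (1 + δ) (6 * δ) (by linarith) (by linarith)
      (by linarith) hwb hdef (Fin m) y hy i j h
  have horb := h7 A H w hw (Fin m) x hx (18 * (6 * δ)) (by positivity)
    (fun i j h => ⟨hent x hx i j h, hent (star x) (Unitary.star_mem hx) i j h⟩) (2 * Q + 2) Q hQ
    (by nlinarith) (by omega) ζ
  have hlow : Q * (3 / 4 * (G * ‖θ‖ ^ 2)) ≤ ∑ ω, Phi ω := by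
    rw [hPhi, sum_comm]
    have h8 : ∑ _k ∈ range Q, 3 / 4 * (G * ‖θ‖ ^ 2) ≤ ∑ k ∈ range Q,
        ∑ ω : Fin m → ZMod (2 * Q + 2), ‖amp w (Fin m) ((x * ph A ω) ^ k) θ‖ ^ 2 := by
      refine sum_le_sum fun k hk => ?_
      exact horb.1 k (mem_range.1 hk)
    rw [sum_const, card_range, nsmul_eq_mul] at h8
    exact h8
  have hup : ∑ ω, Psi ω ≤ 4 / 3 * (G * ‖ζ‖ ^ 2) := by
    have h8 : ∑ ω, Psi ω = (1 / (Q : ℝ)) * ∑ q ∈ range Q,
        ∑ ω : Fin m → ZMod (2 * Q + 2),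
          ‖amp w (Fin m) (star (x * ph A ω) ^ (q + 1)) θ‖ ^ 2 := by
      rw [hPsi]
      rw [← mul_sum, sum_comm]
    have h9 : ∑ q ∈ range Q, ∑ ω : Fin m → ZMod (2 * Q + 2),
          ‖amp w (Fin m) (star (x * ph A ω) ^ (q + 1)) θ‖ ^ 2 ≤
        ∑ _q ∈ range Q, 4 / 3 * (G * ‖ζ‖ ^ 2) := by
      refine sum_le_sum fun q hq => ?_
      exact horb.2 q (mem_range.1 hq)
    rw [sum_const, card_range, nsmul_eq_mul] at h9
    rw [h8]
    calc (1 / (Q : ℝ)) * ∑ q ∈ range Q, ∑ ω : Fin m → ZMod (2 * Q + 2),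
          ‖amp w (Fin m) (star (x * ph A ω) ^ (q + 1)) θ‖ ^ 2
        ≤ (1 / (Q : ℝ)) * (Q * (4 / 3 * (G * ‖ζ‖ ^ 2))) :=
          mul_le_mul_of_nonneg_left h9 (by positivity)
      _ = 4 / 3 * (G * ‖ζ‖ ^ 2) := by field_simp
  have hcomb := combine Phi Psi Y Q m (g ^ 2 * ‖ζ‖ ^ 2) (216 * Q ^ 2 * γ ^ 2) hmr hQr.le
    (by positivity) (by positivity) hY0 hPsi0 hgood hbad hsumY
  have hfin : (G * Q ^ 2) * (3 / 4 * ‖θ‖ ^ 2) ≤
      (G * Q ^ 2) * ((g ^ 2 / 32 + 288 * γ ^ 2) * ‖ζ‖ ^ 2) := by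
    have e1 : (Q : ℝ) * (Q * (3 / 4 * (G * ‖θ‖ ^ 2))) ≤ Q * ∑ ω, Phi ω :=
      mul_le_mul_of_nonneg_left hlow hQr.le
    have e2 : (216 * (Q : ℝ) ^ 2 * γ ^ 2) * ∑ ω, Psi ω ≤
        (216 * (Q : ℝ) ^ 2 * γ ^ 2) * (4 / 3 * (G * ‖ζ‖ ^ 2)) :=
      mul_le_mul_of_nonneg_left hup (by positivity)
    have e3 : (Fintype.card (Fin m → ZMod (2 * Q + 2)) : ℝ) *
        ((Q : ℝ) ^ 2 * (g ^ 2 * ‖ζ‖ ^ 2) / 32) = (G * Q ^ 2) * ((g ^ 2 / 32) * ‖ζ‖ ^ 2) := by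
      rw [← hG]; ring
    rw [e3] at hcomb
    calc (G * Q ^ 2) * (3 / 4 * ‖θ‖ ^ 2) = (Q : ℝ) * (Q * (3 / 4 * (G * ‖θ‖ ^ 2))) := by ring
      _ ≤ Q * ∑ ω, Phi ω := e1
      _ ≤ (216 * (Q : ℝ) ^ 2 * γ ^ 2) * (4 / 3 * (G * ‖ζ‖ ^ 2)) +
          (G * Q ^ 2) * ((g ^ 2 / 32) * ‖ζ‖ ^ 2) := hcomb.trans (add_le_add e2 le_rfl)
      _ = _ := by ring
  have hfin2 := le_of_mul_le_mul_left hfin (by positivity)
  calc ‖θ‖ ^ 2 = 4 / 3 * (3 / 4 * ‖θ‖ ^ 2) := by ring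
    _ ≤ 4 / 3 * ((g ^ 2 / 32 + 288 * γ ^ 2) * ‖ζ‖ ^ 2) :=
      mul_le_mul_of_nonneg_left hfin2 (by norm_num)
    _ = (g ^ 2 / 24 + 384 * γ ^ 2) * ‖ζ‖ ^ 2 := by ring

open Rec2 in
theorem prove2_rec (h1 : T2_defect.{u, v}) (h2 : T2_entry.{u, v}) (h3 : T2_dix.{u, v}) (h4 : T2_embed.{u, v})
    (h5 : T2_det.{u, v}) (h6 : St_phtr.{u}) (h7 : T2_orbit.{u, v}) : T2_rec.{u, v} := by
  intro A _ _ _ H _ _ _ w τ hw hτ hdix δ hδ0 hδ1 hwb Q m l hQ hδQ hm hml γ hγ hl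
  have hm0 : 0 < m := lt_of_lt_of_le (by positivity) hm
  haveI : Nonempty (Fin m) := ⟨⟨0, hm0⟩⟩
  obtain ⟨hW, -, -⟩ := h3 A H w τ hw hτ hdix (1 + δ) (by linarith) hwb (Fin m)
  let S : Set ℝ := {c | 0 ≤ c ∧ ∀ Y : CStarMatrix (Fin m) (Fin m) A,
      ‖amp w (Fin m) Y‖ ≤ c * ‖Y‖}
  have hne : (m : ℝ) * (1 + δ) ∈ S :=
    ⟨by positivity, fun Y => amp_norm_le w (by linarith) hwb m Y⟩
  have hbdd : BddBelow S := ⟨0, fun c hc => hc.1⟩
  obtain ⟨g, hgdef⟩ : ∃ g : ℝ, g = sInf S := ⟨_, rfl⟩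
  have hg0 : 0 ≤ g := by
    rw [hgdef]
    exact le_csInf ⟨_, hne⟩ (fun c hc => hc.1)
  have hgle : ∀ c, c ∈ S → g ≤ c := fun c hc => by
    rw [hgdef]
    exact csInf_le hbdd hc
  have hgW : ∀ Y : CStarMatrix (Fin m) (Fin m) A, ‖amp w (Fin m) Y‖ ≤ g * ‖Y‖ := by
    intro Y
    rcases (norm_nonneg Y).eq_or_lt with hY | hY
    · have := hne.2 Y
      rw [← hY, mul_zero] at this ⊢
      exact this
    · rw [← div_le_iff₀ hY, hgdef]
      apply le_csInf ⟨_, hne⟩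
      intro c hc
      rw [div_le_iff₀ hY]
      exact hc.2 Y
  obtain ⟨s, hs⟩ : ∃ s : ℝ, s = √(g ^ 2 / 24 + 384 * γ ^ 2) := ⟨_, rfl⟩
  have hs0 : 0 ≤ s := by rw [hs]; exact Real.sqrt_nonneg _
  have hs2 : s ^ 2 = g ^ 2 / 24 + 384 * γ ^ 2 := by
    rw [hs]; exact Real.sq_sqrt (by positivity)
  have hxs : ∀ x ∈ unitary (CStarMatrix (Fin m) (Fin m) A), ‖amp w (Fin m) x‖ ≤ s := by
    intro x hx
    apply ContinuousLinearMap.opNorm_le_bound _ hs0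
    intro ζ
    have h8 := rec2_key h1 h2 h4 h5 h6 h7 A H w τ hw hτ hdix δ hδ0 hδ1 hwb Q m l hQ hδQ hm hml γ
      hγ hl hW g hg0 hgW x hx ζ
    rw [← hs2] at h8
    have h9 : ‖amp w (Fin m) x ζ‖ ^ 2 ≤ (s * ‖ζ‖) ^ 2 := by
      rw [mul_pow]; exact h8
    exact (abs_le_of_sq_le_sq' h9 (by positivity)).2
  have hXs : ∀ X : CStarMatrix (Fin m) (Fin m) A, ‖amp w (Fin m) X‖ ≤ 2 * s * ‖X‖ := by
    intro X
    obtain ⟨u, c, hX, hc⟩ := CStarAlgebra.exists_sum_four_unitary X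
    calc ‖amp w (Fin m) X‖ = ‖∑ i, c i • amp w (Fin m) (u i : CStarMatrix (Fin m) (Fin m) A)‖ := by
          conv_lhs => rw [hX]
          rw [map_sum]
          simp_rw [map_smul]
      _ ≤ ∑ i, ‖c i • amp w (Fin m) (u i : CStarMatrix (Fin m) (Fin m) A)‖ := norm_sum_le _ _
      _ ≤ ∑ i : Fin 4, ‖X‖ / 2 * s := by
          refine Finset.sum_le_sum fun i _ => ?_
          rw [norm_smul]
          exact mul_le_mul (hc i) (hxs _ (u i).2) (norm_nonneg _) (by positivity)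
      _ = 2 * s * ‖X‖ := by
          simp
          ring
  have hg2 : g ≤ 2 * s := hgle _ ⟨by positivity, hXs⟩
  have hg3 : g ≤ 50 * γ := by
    have e1 : g ^ 2 ≤ 4 * s ^ 2 := by
      have : g ^ 2 ≤ (2 * s) ^ 2 := pow_le_pow_left₀ hg0 hg2 2
      calc g ^ 2 ≤ (2 * s) ^ 2 := this
        _ = 4 * s ^ 2 := by ring
    rw [hs2] at e1
    have e2 : g ^ 2 ≤ (50 * γ) ^ 2 := by nlinarith [sq_nonneg γ]
    exact (abs_le_of_sq_le_sq' e2 (by positivity)).2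
  intro X
  exact (hgW X).trans (mul_le_mul_of_nonneg_right hg3 (norm_nonneg X))

end H759R2.Kad
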